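import Pool.Agent.Helper69.UX.StD

/-!
# Project UX (MP_e12aa9_pr), module OVN (overlap sum with `z = n`)
-/

set_option autoImplicit false

namespace Pool.Agent.Helper33.UX

open Finset Filter Pool.Agent.Helper82.CN Pool.Agent.Helper11.PV Pool.Agent.Helper69.VX
  Pool.Agent.Helper69.UX

/-- size of the biggest block is at most the size of the class -/
lemma ovn_mxb_le {n : ℕ} (Q : Finset (Finset (Fin n))) (A : Finset (Fin n)) :
    mxb Q A ≤ A.card := by
  unfold mxb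
  exact Finset.sup_le (fun B _ => Finset.card_le_card Finset.inter_subset_left)

lemma ovn_sum_le {n : ℕ} (P I : Finset (Finset (Fin n))) (hP : P ∈ Pt (Fin n)) (hI : I ⊆ P) :
    ∑ C ∈ I, C.card ≤ n := by
  classical
  simp only [Pt, Finset.mem_filter] at hP
  have h := hP.2.2.1
  have hd : (I : Set (Finset (Fin n))).PairwiseDisjoint id := by
    intro A hA B hB hAB
    exact h A (hI hA) B (hI hB) hAB
  have h2 : (I.biUnion id).card = ∑ C ∈ I, C.card := Finset.card_biUnion (fun A hA B hB hAB => hd hA hB hAB)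
  rw [← h2]
  calc (I.biUnion id).card ≤ (univ : Finset (Fin n)).card := Finset.card_le_univ _
    _ = n := by simp

/-- the scalar part -/
lemma ovn_mono (hFAC : StFAC) (x Y : ℝ) (hx : 0 ≤ x) (hxY : x ≤ Y) (hY : Y ≤ 1) :
    x - ph x ≤ Y - ph Y := by
  rcases lt_or_eq_of_le hY with h | h
  · exact (hFAC.2.2.1 x Y hx hxY h).1
  · have h1 := hFAC.2.2.2 x hx (hxY.trans hY)
    have h2 : ph Y = 0 := by rw [h]; unfold ph; simp
    rw [h2, h]; linarith

theorem hOVN (hOVL : StOVL) (hGAM : StGAM) (hFAC : StFAC) (hSIZ : StSIZ) : StOVN := by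
  intro p ε hp hp2 hε hε2
  obtain ⟨n1, h1⟩ := hGAM p ε hp hp2 hε hε2
  obtain ⟨n2, h2⟩ := hSIZ p ε 1 (⌈1 / ε⌉₊) hp hp2 hε hε2 one_pos
  refine ⟨max (max n1 n2) 1, ?_⟩
  intro n T N th ws κ P I hn hW hWt hP hA hI hws1 hws2 hN
  have hn1 : n1 ≤ n := (le_max_left _ _).trans ((le_max_left _ _).trans hn)
  have hn2 : n2 ≤ n := (le_max_right _ _).trans ((le_max_left _ _).trans hn)
  have hn3 : 1 ≤ n := (le_max_right _ _).trans hn
  have hnpos : (0 : ℝ) < n := by exact_mod_cast hn3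
  have hq : 0 < 1 - p := by
    have : 0 < 1 / Real.exp 2 := by positivity
    linarith
  have hw1 : 1 ≤ 1 / (1 - p) := by
    rw [le_div_iff₀ hq]; linarith
  -- T is large
  have hT : 1 / ε ≤ T := by
    have h3 := (h2 n T th hn2 hW).t4.1
    have h4 : 1 / ε ≤ (⌈1 / ε⌉₊ : ℝ) := Nat.le_ceil _
    have h5 : ((⌈1 / ε⌉₊ : ℕ) : ℝ) + 4 ≤ T := by exact_mod_cast h3
    linarith
  have hAR : T + 1 ≤ 2 * RR ε T := by
    have h3 : (1 / 2 + ε / 2) * (T : ℝ) ≤ (RR ε T : ℝ) := Nat.le_ceil _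
    have h4 : 1 ≤ ε * T := by
      rw [div_le_iff₀ hε] at hT; linarith
    have h5 : ((T + 1 : ℕ) : ℝ) ≤ ((2 * RR ε T : ℕ) : ℝ) := by
      push_cast; nlinarith
    exact_mod_cast h5
  -- nonnegativity of FF
  have hg : ∀ v, 0 ≤ gf κ v := fun v => mul_nonneg (Nat.cast_nonneg _) (hWt.nn v)
  have hFF : ∀ c, 0 ≤ FF p n T (RR ε T) κ c := by
    intro c
    unfold FF
    refine Finset.sum_nonneg (fun r _ => ?_)
    refine mul_nonneg ?_ (Finset.sum_nonneg (fun v _ => div_nonneg (hg v) (Nat.cast_nonneg _)))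
    positivity
  have hprod : 0 ≤ ∏ C ∈ I, FF p n T (RR ε T) κ C.card := Finset.prod_nonneg (fun C _ => hFF _)
  by_cases hQ : ∃ Q ∈ Pt (Fin n), bigS (RR ε T) P Q = I ∧ NR (RR ε T) P Q = N
  swap
  · have h0 : (Pt (Fin n)).filter (fun Q => bigS (RR ε T) P Q = I ∧ NR (RR ε T) P Q = N) = ∅ := by
      rw [Finset.filter_eq_empty_iff]
      intro Q hQ1 hQ2
      exact hQ ⟨Q, hQ1, hQ2⟩
    rw [h0, Finset.sum_empty]
    refine mul_nonneg (mul_nonneg (Nat.cast_nonneg _) (Real.exp_pos _).le) hprod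
  obtain ⟨Q, -, hQ1, hQ2⟩ := hQ
  have hNpos : (0 : ℝ) < N := lt_of_lt_of_le (Real.rpow_pos_of_pos hnpos _) hN
  have hN1 : 1 ≤ N := by
    have : 0 < N := by exact_mod_cast hNpos
    omega
  have hNn : N ≤ n := by
    rw [← hQ2]; unfold NR; simp
  have hNge : n ≤ N + ∑ C ∈ I, C.card := by
    have h3 : ∑ A ∈ bigS (RR ε T) P Q, mxb Q A ≤ ∑ C ∈ I, C.card := by
      rw [hQ1]; exact Finset.sum_le_sum (fun A _ => ovn_mxb_le Q A)
    have h4 : N = n - ∑ A ∈ bigS (RR ε T) P Q, mxb Q A := by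
      rw [← hQ2]; unfold NR; simp
    omega
  have hsum := ovn_sum_le P I hP hI
  -- Y
  obtain ⟨Y, hYdef⟩ : ∃ Y : ℝ, Y = ((∑ C ∈ I, C.card : ℕ) : ℝ) / n := ⟨_, rfl⟩
  have hY1 : Y ≤ 1 := by
    rw [hYdef, div_le_one hnpos]; exact_mod_cast hsum
  have hxY : 1 - (N : ℝ) / n ≤ Y := by
    rw [hYdef, sub_le_iff_le_add, ← add_div, le_div_iff₀ hnpos, one_mul]
    have : (n : ℝ) ≤ ((N + ∑ C ∈ I, C.card : ℕ) : ℝ) := by exact_mod_cast hNge
    push_cast at this ⊢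
    linarith
  have hx0 : 0 ≤ 1 - (N : ℝ) / n := by
    rw [sub_nonneg, div_le_one hnpos]; exact_mod_cast hNn
  have hm := ovn_mono hFAC _ Y hx0 hxY hY1
  have hfac := hFAC.1 n N hN1 hNn
  have hgam := h1 n T N th ws hn1 hW (hw1.trans hws1) hws2 hN
  have hO := hOVL n (T + 1) (RR ε T) N (gf κ) (1 / (1 - p)) ws (n : ℝ) P I hP hI hA hAR hN1 hNn hg
    (by unfold gf; rw [hWt.z0]; simp)
    (fun v hv => by unfold gf; rw [hWt.zz v hv]; simp) hw1 hws1 hnpos
  have hk : ∑ v ∈ range (T + 1 + 1), gf κ v / (v.factorial : ℝ) = ∑ v ∈ range (T + 2), κ v := by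
    refine Finset.sum_congr rfl (fun v _ => ?_)
    unfold gf
    have : (v.factorial : ℝ) ≠ 0 := by exact_mod_cast v.factorial_ne_zero
    field_simp
  rw [hk] at hO
  have hO' : ∑ Q ∈ (Pt (Fin n)).filter (fun Q => bigS (RR ε T) P Q = I ∧ NR (RR ε T) P Q = N),
      pw (gf κ) Q * (1 / (1 - p)) ^ ovB (RR ε T) P Q * ws ^ (ovl P Q - ovB (RR ε T) P Q) ≤
    Real.exp (GG (T + 1) (RR ε T) N ws + ∑ v ∈ range (T + 2), κ v) * (N.factorial : ℝ) *
      (n : ℝ) ^ (n - N) * ∏ C ∈ I, FF p n T (RR ε T) κ C.card := by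
    refine le_trans (le_of_eq ?_) (hO.trans (le_of_eq ?_))
    · congr
    · rfl
  refine hO'.trans ?_
  refine mul_le_mul_of_nonneg_right ?_ hprod
  rw [← hYdef]
  calc Real.exp (GG (T + 1) (RR ε T) N ws + ∑ v ∈ range (T + 2), κ v) * (N.factorial : ℝ) *
      (n : ℝ) ^ (n - N)
      = Real.exp (GG (T + 1) (RR ε T) N ws + ∑ v ∈ range (T + 2), κ v) *
        ((N.factorial : ℝ) * (n : ℝ) ^ (n - N)) := by ring
    _ ≤ Real.exp ((T : ℝ) ^ 3 + ∑ v ∈ range (T + 2), κ v) *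
        ((n.factorial : ℝ) * Real.exp (1 + Real.log n + n * (Y - ph Y))) := by
        refine mul_le_mul ?_ (hfac.trans ?_) (by positivity) (Real.exp_pos _).le
        · exact Real.exp_le_exp.2 (by linarith)
        · refine mul_le_mul_of_nonneg_left (Real.exp_le_exp.2 ?_) (Nat.cast_nonneg _)
          have := mul_le_mul_of_nonneg_left hm hnpos.le
          linarith
    _ = (n.factorial : ℝ) * Real.exp ((T : ℝ) ^ 3 + 1 + Real.log n + ∑ v ∈ range (T + 2), κ v +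
        n * (Y - ph Y)) := by
        rw [mul_left_comm, ← Real.exp_add]
        congr 2
        ring

end Pool.Agent.Helper33.UX
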